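import Pool.Agent.H30.FCB.StC

/-!
XNUM: the numerical laws for `X`.
-/

open MvPolynomial

namespace FCB.XNUM

/-- A positive functional on the degrees. -/
def phi : (Fin 5 → ℤ) →+ ℤ where
  toFun g := g 0 + 5 * g 1 + g 2 + g 3 + 5 * g 4
  map_zero' := by simp
  map_add' g h := by simp only [Pi.add_apply]; ring

lemma pos (j : CX) : 0 < phi (degX j) := by
  cases j with
  | t i => simp [phi, degX]
  | y i => fin_cases i <;> simp [phi, degX]
  | z => simp [phi, degX]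
  | w => simp [phi, degX]
  | v => simp [phi, degX]
  | a => simp [phi, degX]
  | b => simp [phi, degX]
  | x => simp [phi, degX]

lemma nonempty (c : ChX) : (uX c).Nonempty := ⟨CX.t c.1, by simp [uX]⟩

lemma nu_supp (c : ChX) (j : CX) : nuX c j ≠ 0 ↔ j ∈ uX c := by
  obtain ⟨i, l, k⟩ := c
  fin_cases k <;> cases j <;> simp [nuX, uX, vecX]

lemma sum_vec {A : Type} (i : Fin 9) (j : Fin 3) (f : CX → A → (Fin 5 → ℤ)) [Zero A]
    (hf : ∀ j, f j 0 = 0) (t y z w v a b x : A) :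
    ∑ l, f l (vecX i j t y z w v a b x l) = f (.t i) t + (f (.y j) y +
      (f .z z + (f .w w + (f .v v + (f .a a + (f .b b + f .x x)))))) := by
  rw [sum_CX]
  have h1 : ∑ i', f (.t i') (vecX i j t y z w v a b x (.t i')) = f (.t i) t := by
    rw [Finset.sum_eq_single i]
    · simp [vecX]
    · intro i' _ h
      simp [vecX, h, hf]
    · simp
  have h2 : ∑ j', f (.y j') (vecX i j t y z w v a b x (.y j')) = f (.y j) y := by
    rw [Finset.sum_eq_single j]
    · simp [vecX]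
    · intro i' _ h
      simp [vecX, h, hf]
    · simp
  rw [h1, h2]
  rfl

lemma degt (i : Fin 9) : degX (.t i) = ![1, 0, 0, 0, 0] := rfl

lemma degy (j : Fin 3) : degX (.y j) = ![-(tw j : ℤ), 1, 0, 0, 0] := by
  fin_cases j <;> simp [degX, tw]

lemma nu_wt (c : ChX) : DX.wt (DX.ν c) = DX.d c • DX.L := by
  obtain ⟨i, j, k⟩ := c
  change ∑ l, ((nuX (i, j, k) l : ℕ) : ℤ) • degX l = _
  fin_cases k
  all_goals
    simp only [nuX, DX]
    rw [sum_vec i j (fun l n => ((n : ℕ) : ℤ) • degX l) (by simp), degt, degy]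
    funext m
    fin_cases m <;> simp [degX]

lemma sigma_supp (c : ChX) (g : Fin 5 → ℤ) (j : CX) : sigmaX c g j ≠ 0 → j ∈ uX c := by
  obtain ⟨i, l, k⟩ := c
  fin_cases k <;> cases j <;> simp [sigmaX, uX, vecX] <;> tauto

lemma sigma_wt (c : ChX) (g : Fin 5 → ℤ) : DX.wtZ (DX.σ c g) = g := by
  obtain ⟨i, j, k⟩ := c
  change ∑ l, (sigmaX (i, j, k) g l : ℤ) • degX l = _
  fin_cases k
  all_goals
    simp only [sigmaX]
    rw [sum_vec i j (fun l n => (n : ℤ) • degX l) (by simp), degt, degy]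
    funext m
    fin_cases m <;> simp [degX] <;> ring

lemma avoid (j : CX) : ∃ c, j ∉ uX c := by
  cases j with
  | t i => exact ⟨(i + 1, 0, 0), by simp [uX]⟩
  | y i => exact ⟨(0, i + 1, 0), by simp [uX]⟩
  | z => exact ⟨(0, 0, 0), by simp [uX]⟩
  | w => exact ⟨(0, 0, 4), by simp [uX]⟩
  | v => exact ⟨(0, 0, 4), by simp [uX]⟩
  | a => exact ⟨(0, 0, 1), by simp [uX]⟩
  | b => exact ⟨(0, 0, 0), by simp [uX]⟩
  | x => exact ⟨(0, 0, 0), by simp [uX]⟩

end FCB.XNUM

open FCB.XNUM in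
theorem FCB.xnum : FCB.S_XNUM := by
  refine ⟨⟨FCB.XNUM.phi, pos⟩, ?_, nonempty, nu_supp, nu_wt, sigma_supp, sigma_wt, avoid⟩
  intro c
  simp only [DX]
  split_ifs <;> norm_num
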