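import Pool.Agent.H30.FCB.StC

/-!
XJAC: the Jacobian ideal of the equation of `X` is trivial on every chart.
-/

open MvPolynomial

namespace FCB.XJAC

noncomputable abbrev J : Ideal (MvPolynomial CX ℂ) :=
  Ideal.span ({FX} ∪ Set.range fun j => pderiv j FX)

lemma pd_mem (j : CX) : pderiv j FX ∈ J := Ideal.subset_span (Or.inr ⟨j, rfl⟩)

lemma pd_two (j : CX) : pderiv j (2 : MvPolynomial CX ℂ) = 0 := by
  have : (2 : MvPolynomial CX ℂ) = C 2 := (map_ofNat C 2).symm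
  rw [this, pderiv_C]

lemma pd_x : pderiv CX.x FX = 2 * X CX.x := by
  simp [FX, GX, eP, pderiv_X, Derivation.leibniz, Derivation.leibniz_pow, pd_two]

lemma pd_z : pderiv CX.z FX = 2 * (X CX.a * X CX.b) := by
  simp [FX, GX, eP, pderiv_X, Derivation.leibniz, Derivation.leibniz_pow, pd_two]
  ring

lemma pd_a : pderiv CX.a FX =
    2 * (X CX.z * X CX.b) + 2 * (eP CX.y * X CX.w ^ 2 * X CX.a) := by
  simp [FX, GX, eP, pderiv_X, Derivation.leibniz, Derivation.leibniz_pow, pd_two]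
  ring

lemma pd_b : pderiv CX.b FX =
    2 * (X CX.z * X CX.a) + 2 * (eP CX.y * X CX.v ^ 2 * X CX.b) := by
  simp [FX, GX, eP, pderiv_X, Derivation.leibniz, Derivation.leibniz_pow, pd_two]
  ring

lemma pd_y0 : pderiv (CX.y 0) FX =
    X (CX.y 1) * (X CX.w ^ 2 * X CX.a ^ 2 + X CX.v ^ 2 * X CX.b ^ 2) := by
  simp [FX, GX, eP, pderiv_X, Derivation.leibniz, Derivation.leibniz_pow, pd_two]
  ring

lemma pd_y1 : pderiv (CX.y 1) FX =
    X (CX.y 0) * (X CX.w ^ 2 * X CX.a ^ 2 + X CX.v ^ 2 * X CX.b ^ 2) := by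
  simp [FX, GX, eP, pderiv_X, Derivation.leibniz, Derivation.leibniz_pow, pd_two]
  ring

lemma pd_y2 : pderiv (CX.y 2) FX =
    -2 * X (CX.y 2) * (X CX.w ^ 2 * X CX.a ^ 2 + X CX.v ^ 2 * X CX.b ^ 2) := by
  simp [FX, GX, eP, pderiv_X, Derivation.leibniz, Derivation.leibniz_pow, pd_two]
  ring

lemma half {p : MvPolynomial CX ℂ} (h : 2 * p ∈ J) : p ∈ J := by
  have h1 : p = C (1 / 2) * (2 * p) := by
    rw [← mul_assoc]
    have : (C (1 / 2) * 2 : MvPolynomial CX ℂ) = 1 := by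
      have h2 : (2 : MvPolynomial CX ℂ) = C 2 := (map_ofNat C 2).symm
      rw [h2, ← C_mul]
      norm_num
    rw [this, one_mul]
  rw [h1]
  exact Ideal.mul_mem_left _ _ h

lemma x_mem : (X CX.x : MvPolynomial CX ℂ) ∈ J := half (by rw [← pd_x]; exact pd_mem _)

lemma ab_mem : (X CX.a * X CX.b : MvPolynomial CX ℂ) ∈ J := half (by rw [← pd_z]; exact pd_mem _)

lemma zb_mem : (X CX.z * X CX.b ^ 2 : MvPolynomial CX ℂ) ∈ J := by
  apply half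
  have h : 2 * (X CX.z * X CX.b ^ 2) = X CX.b * pderiv CX.a FX -
      2 * (eP CX.y * X CX.w ^ 2) * (X CX.a * X CX.b) := by
    rw [pd_a]; ring
  rw [h]
  exact Ideal.sub_mem _ (Ideal.mul_mem_left _ _ (pd_mem _)) (Ideal.mul_mem_left _ _ ab_mem)

lemma za_mem : (X CX.z * X CX.a ^ 2 : MvPolynomial CX ℂ) ∈ J := by
  apply half
  have h : 2 * (X CX.z * X CX.a ^ 2) = X CX.a * pderiv CX.b FX -
      2 * (eP CX.y * X CX.v ^ 2) * (X CX.a * X CX.b) := by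
    rw [pd_b]; ring
  rw [h]
  exact Ideal.sub_mem _ (Ideal.mul_mem_left _ _ (pd_mem _)) (Ideal.mul_mem_left _ _ ab_mem)

lemma y_mem (j : Fin 3) : X (CX.y j) * (X CX.w ^ 2 * X CX.a ^ 2 + X CX.v ^ 2 * X CX.b ^ 2) ∈ J := by
  fin_cases j
  · change X (CX.y 0) * _ ∈ J
    rw [← pd_y1]; exact pd_mem _
  · change X (CX.y 1) * _ ∈ J
    rw [← pd_y0]; exact pd_mem _
  · change X (CX.y 2) * _ ∈ J
    apply half
    have h : 2 * (X (CX.y 2) * (X CX.w ^ 2 * X CX.a ^ 2 + X CX.v ^ 2 * X CX.b ^ 2)) =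
        -pderiv (CX.y 2) FX := by
      rw [pd_y2]; ring
    rw [h]
    exact Ideal.neg_mem_iff _ |>.2 (pd_mem _)

lemma ya_mem (j : Fin 3) : X (CX.y j) * X CX.w ^ 2 * X CX.a ^ 4 ∈ J := by
  have h : (X (CX.y j) * X CX.w ^ 2 * X CX.a ^ 4 : MvPolynomial CX ℂ) =
      X CX.a ^ 2 * (X (CX.y j) * (X CX.w ^ 2 * X CX.a ^ 2 + X CX.v ^ 2 * X CX.b ^ 2)) -
      X (CX.y j) * X CX.v ^ 2 * (X CX.a * X CX.b) * (X CX.a * X CX.b) := by ring
  rw [h]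
  exact Ideal.sub_mem _ (Ideal.mul_mem_left _ _ (y_mem j)) (Ideal.mul_mem_left _ _ ab_mem)

lemma yb_mem (j : Fin 3) : X (CX.y j) * X CX.v ^ 2 * X CX.b ^ 4 ∈ J := by
  have h : (X (CX.y j) * X CX.v ^ 2 * X CX.b ^ 4 : MvPolynomial CX ℂ) =
      X CX.b ^ 2 * (X (CX.y j) * (X CX.w ^ 2 * X CX.a ^ 2 + X CX.v ^ 2 * X CX.b ^ 2)) -
      X (CX.y j) * X CX.w ^ 2 * (X CX.a * X CX.b) * (X CX.a * X CX.b) := by ring
  rw [h]
  exact Ideal.sub_mem _ (Ideal.mul_mem_left _ _ (y_mem j)) (Ideal.mul_mem_left _ _ ab_mem)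

end FCB.XJAC

open FCB.XJAC in
theorem FCB.xjac : FCB.S_XJAC := by
  intro c
  have hd : ∀ j ∈ uX c, (X j : MvPolynomial CX ℂ) ∣ ∏ j ∈ uX c, (X j : MvPolynomial CX ℂ) :=
    fun j hj => Finset.dvd_prod_of_mem _ hj
  have hJ : ∀ (k : ℕ) (q : MvPolynomial CX ℂ), q ∈ J →
      q ∣ (∏ j ∈ uX c, (X j : MvPolynomial CX ℂ)) ^ k →
      ∃ k : ℕ, (∏ j ∈ uX c, (X j : MvPolynomial CX ℂ)) ^ k ∈
        Ideal.span ({FX} ∪ Set.range fun j => pderiv j FX) :=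
    fun k q hq hk => ⟨k, Ideal.mem_of_dvd _ hk hq⟩
  obtain ⟨i, j, k⟩ := c
  fin_cases k
  · refine hJ (1 + 2 + 4) _ (ya_mem j) ?_
    rw [pow_add, pow_add, pow_one]
    refine mul_dvd_mul (mul_dvd_mul (hd _ ?_) (pow_dvd_pow_of_dvd (hd _ ?_) _))
      (pow_dvd_pow_of_dvd (hd _ ?_) _) <;> simp [uX]
  · refine hJ (1 + 2 + 4) _ (yb_mem j) ?_
    rw [pow_add, pow_add, pow_one]
    refine mul_dvd_mul (mul_dvd_mul (hd _ ?_) (pow_dvd_pow_of_dvd (hd _ ?_) _))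
      (pow_dvd_pow_of_dvd (hd _ ?_) _) <;> simp [uX]
  · refine hJ (1 + 2) _ zb_mem ?_
    rw [pow_add, pow_one]
    refine mul_dvd_mul (hd _ ?_) (pow_dvd_pow_of_dvd (hd _ ?_) _) <;> simp [uX]
  · refine hJ (1 + 2) _ za_mem ?_
    rw [pow_add, pow_one]
    refine mul_dvd_mul (hd _ ?_) (pow_dvd_pow_of_dvd (hd _ ?_) _) <;> simp [uX]
  · refine hJ 1 _ x_mem ?_
    rw [pow_one]
    refine hd _ ?_
    simp [uX]
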