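import Pool.Agent.H30.FCB.StC

/-!
YNUM: the numerical laws for `Y`.
-/

open MvPolynomial

namespace FCB.YNUM

/-- A positive functional on the degrees. -/
def phi : (Fin 3 → ℤ) →+ ℤ where
  toFun g := g 0 + 5 * g 1 + 7 * g 2
  map_zero' := by simp
  map_add' g h := by simp only [Pi.add_apply]; ring

lemma pos (j : CY) : 0 < phi (degY j) := by
  cases j with
  | t i => simp [phi, degY]
  | y i => fin_cases i <;> simp [phi, degY]
  | z => simp [phi, degY]
  | o => simp [phi, degY]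

lemma nonempty (c : ChY) : (uY c).Nonempty := ⟨CY.t c.1, by simp [uY]⟩

lemma nu_supp (c : ChY) (j : CY) : nuY c j ≠ 0 ↔ j ∈ uY c := by
  obtain ⟨i, l, k⟩ := c
  fin_cases k <;> cases j <;> simp [nuY, uY, vecY]

lemma sum_vec {A : Type} (i : Fin 9) (j : Fin 3) (f : CY → A → (Fin 3 → ℤ)) [Zero A]
    (hf : ∀ j, f j 0 = 0) (t y z o : A) :
    ∑ l, f l (vecY i j t y z o l) = f (.t i) t + (f (.y j) y + (f .z z + f .o o)) := by
  rw [sum_CY]
  have h1 : ∑ i', f (.t i') (vecY i j t y z o (.t i')) = f (.t i) t := by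
    rw [Finset.sum_eq_single i]
    · simp [vecY]
    · intro i' _ h
      simp [vecY, h, hf]
    · simp
  have h2 : ∑ j', f (.y j') (vecY i j t y z o (.y j')) = f (.y j) y := by
    rw [Finset.sum_eq_single j]
    · simp [vecY]
    · intro i' _ h
      simp [vecY, h, hf]
    · simp
  rw [h1, h2]
  rfl

lemma degt (i : Fin 9) : degY (.t i) = ![1, 0, 0] := rfl

lemma degy (j : Fin 3) : degY (.y j) = ![-(tw j : ℤ), 1, 0] := by
  fin_cases j <;> simp [degY, tw]

lemma nu_wt (c : ChY) : DY.wt (DY.ν c) = DY.d c • DY.L := by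
  obtain ⟨i, j, k⟩ := c
  change ∑ l, ((nuY (i, j, k) l : ℕ) : ℤ) • degY l = _
  fin_cases k
  all_goals
    simp only [nuY, DY]
    rw [sum_vec i j (fun l n => ((n : ℕ) : ℤ) • degY l) (by simp), degt, degy]
    funext m
    fin_cases m <;> simp [degY]

lemma sigma_supp (c : ChY) (g : Fin 3 → ℤ) (j : CY) : sigmaY c g j ≠ 0 → j ∈ uY c := by
  obtain ⟨i, l, k⟩ := c
  fin_cases k <;> cases j <;> simp [sigmaY, uY, vecY] <;> tauto

lemma sigma_wt (c : ChY) (g : Fin 3 → ℤ) : DY.wtZ (DY.σ c g) = g := by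
  obtain ⟨i, j, k⟩ := c
  change ∑ l, (sigmaY (i, j, k) g l : ℤ) • degY l = _
  fin_cases k
  all_goals
    simp only [sigmaY]
    rw [sum_vec i j (fun l n => (n : ℤ) • degY l) (by simp), degt, degy]
    funext m
    fin_cases m <;> simp [degY] <;> ring

lemma avoid (j : CY) : ∃ c, j ∉ uY c := by
  cases j with
  | t i => exact ⟨(i + 1, 0, 0), by simp [uY]⟩
  | y i => exact ⟨(0, i + 1, 0), by simp [uY]⟩
  | z => exact ⟨(0, 0, 0), by simp [uY]⟩
  | o => exact ⟨(0, 0, 1), by simp [uY]⟩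

end FCB.YNUM

open FCB.YNUM in
theorem FCB.ynum : FCB.S_YNUM :=
  ⟨⟨FCB.YNUM.phi, pos⟩, fun _ => one_pos, nonempty, nu_supp, nu_wt, sigma_supp, sigma_wt, avoid⟩
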