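import Pool.Agent.H30.FCB.StC

/-!
SMH: localisations of hypersurface rings are smooth when the Jacobian ideal becomes trivial.
Infinitesimal lifting, done by hand.
-/

open MvPolynomial

namespace FCB.SMH

/-- Taylor expansion of a polynomial along a square zero ideal. -/
lemma taylor {ι : Type} [Fintype ι] {C : Type} [CommRing C] [Algebra ℂ C] (I : Ideal C)
    (hI : ∀ a ∈ I, ∀ b ∈ I, a * b = 0) (c δ : ι → C) (hδ : ∀ j, δ j ∈ I)
    (F : MvPolynomial ι ℂ) :
    aeval (fun j => c j + δ j) F = aeval c F + ∑ j, aeval c (pderiv j F) * δ j := by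
  classical
  induction F using MvPolynomial.induction_on with
  | C a => simp
  | add p q hp hq =>
    simp only [map_add, hp, hq, add_mul, Finset.sum_add_distrib]
    ring
  | mul_X p i hp =>
    have h0 : (∑ j, aeval c (pderiv j p) * δ j) * δ i = 0 :=
      hI _ (Ideal.sum_mem _ fun j _ => Ideal.mul_mem_left _ _ (hδ j)) _ (hδ i)
    have h1 : ∀ j, aeval c (pderiv j (p * X i)) * δ j =
        aeval c (pderiv j p) * δ j * c i + (if i = j then aeval c p * δ i else 0) := by
      intro j
      rw [Derivation.leibniz, pderiv_X]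
      by_cases hij : i = j
      · subst hij
        simp
        ring
      · simp [hij]
        ring
    simp only [h1, Finset.sum_add_distrib, Finset.sum_ite_eq, Finset.mem_univ, if_true,
      map_mul, aeval_X, hp, ← Finset.sum_mul]
    linear_combination h0

/-- Newton step: a zero modulo a square zero ideal at which the Jacobian ideal is trivial lifts
to a zero. -/
lemma newton {ι : Type} [Fintype ι] {C : Type} [CommRing C] [Algebra ℂ C] (I : Ideal C)
    (hI : ∀ a ∈ I, ∀ b ∈ I, a * b = 0) (c : ι → C) (F n : MvPolynomial ι ℂ)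
    (hn : n ∈ Ideal.span ({F} ∪ Set.range fun j => pderiv j F)) (hF : aeval c F ∈ I)
    (hu : IsUnit (aeval c n)) :
    ∃ δ : ι → C, (∀ j, δ j ∈ I) ∧ aeval (fun j => c j + δ j) F = 0 := by
  classical
  obtain ⟨q, a, ha⟩ : ∃ (q : MvPolynomial ι ℂ) (a : ι → MvPolynomial ι ℂ),
      n = q * F + ∑ j, a j * pderiv j F := by
    rw [Ideal.span_union, Submodule.mem_sup] at hn
    obtain ⟨x, hx, y, hy, hxy⟩ := hn
    obtain ⟨q, rfl⟩ := Ideal.mem_span_singleton'.1 hx
    obtain ⟨a, ha⟩ := Submodule.mem_span_range_iff_exists_fun _ |>.1 hy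
    exact ⟨q, a, by rw [← hxy, ← ha]; simp [smul_eq_mul]⟩
  obtain ⟨v, hv⟩ := hu.exists_left_inv
  refine ⟨fun j => -(v * aeval c (a j) * aeval c F), fun j => ?_, ?_⟩
  · exact I.neg_mem (I.mul_mem_left _ hF)
  · rw [taylor I hI c _ (fun j => I.neg_mem (I.mul_mem_left _ hF))]
    have h1 : aeval c n = aeval c q * aeval c F + ∑ j, aeval c (a j) * aeval c (pderiv j F) := by
      rw [ha]
      simp only [map_add, map_mul, map_sum]
    have h2 : aeval c F * aeval c F = 0 := hI _ hF _ hF
    have h3 : ∑ j, aeval c (pderiv j F) * -(v * aeval c (a j) * aeval c F) =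
        -(v * aeval c F) * ∑ j, aeval c (a j) * aeval c (pderiv j F) := by
      rw [Finset.mul_sum]
      exact Finset.sum_congr rfl fun j _ => by ring
    rw [h3]
    have h4 : ∑ j, aeval c (a j) * aeval c (pderiv j F) = aeval c n - aeval c q * aeval c F := by
      rw [h1]; ring
    rw [h4]
    linear_combination (-(aeval c F)) * hv + v * aeval c q * h2

end FCB.SMH

open FCB.SMH in
theorem FCB.smh : FCB.S_SMH := by
  intro ι _ F m B _ _ _ _ hB hm
  classical
  have := Fintype.ofFinite ι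
  obtain ⟨k, hk⟩ := hm
  have hA : Algebra.FinitePresentation ℂ (MvPolynomial ι ℂ ⧸ Ideal.span {F}) :=
    Algebra.FinitePresentation.quotient ⟨{F}, by simp⟩
  have hAB : Algebra.FinitePresentation (MvPolynomial ι ℂ ⧸ Ideal.span {F}) B :=
    IsLocalization.Away.finitePresentation (Ideal.Quotient.mk (Ideal.span {F}) m)
  refine ⟨?_, Algebra.FinitePresentation.trans ℂ (MvPolynomial ι ℂ ⧸ Ideal.span {F}) B⟩
  apply Algebra.FormallySmooth.of_comp_surjective
  intro C _ _ I hI f
  have hI' : ∀ a ∈ I, ∀ b ∈ I, a * b = 0 := by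
    intro a ha b hb
    have : a * b ∈ I ^ 2 := by
      rw [pow_two]
      exact Ideal.mul_mem_mul ha hb
    rwa [hI, Ideal.mem_bot] at this
  -- the composite `P → A → B → C / I`
  let πA : MvPolynomial ι ℂ →ₐ[ℂ] (MvPolynomial ι ℂ ⧸ Ideal.span {F}) := Ideal.Quotient.mkₐ ℂ _
  let iB : (MvPolynomial ι ℂ ⧸ Ideal.span {F}) →ₐ[ℂ] B := IsScalarTower.toAlgHom ℂ _ B
  let g : MvPolynomial ι ℂ →ₐ[ℂ] C ⧸ I := (f.comp iB).comp πA
  choose c hc using fun j => Ideal.Quotient.mk_surjective (g (X j))
  have hgen : ∀ c' : ι → C, (∀ j, Ideal.Quotient.mk I (c' j) = g (X j)) →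
      ∀ p, Ideal.Quotient.mk I (aeval c' p) = g p := by
    intro c' hc' p
    have : (Ideal.Quotient.mkₐ ℂ I).comp (aeval c') = g := by
      apply MvPolynomial.algHom_ext
      intro j
      simp [hc']
    exact DFunLike.congr_fun this p
  have hnil : ∀ a : C, IsUnit (Ideal.Quotient.mk I a) → IsUnit a := by
    intro a ha
    obtain ⟨b, hb⟩ := ha.exists_right_inv
    obtain ⟨b, rfl⟩ := Ideal.Quotient.mk_surjective b
    have h1 : a * b - 1 ∈ I := by
      rw [← Ideal.Quotient.eq_zero_iff_mem]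
      simp [hb]
    have h2 : (a * b - 1) * (a * b - 1) = 0 := hI' _ h1 _ h1
    exact IsUnit.of_mul_eq_one (b * (2 - a * b)) (by linear_combination -h2)
  have hu : ∀ c' : ι → C, (∀ j, Ideal.Quotient.mk I (c' j) = g (X j)) → IsUnit (aeval c' m) := by
    intro c' hc'
    apply hnil
    rw [hgen c' hc']
    exact (IsLocalization.Away.algebraMap_isUnit (S := B)
      (Ideal.Quotient.mk (Ideal.span {F}) m)).map f
  have hF : aeval c F ∈ I := by
    rw [← Ideal.Quotient.eq_zero_iff_mem, hgen c hc]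
    have : πA F = 0 := Ideal.Quotient.eq_zero_iff_mem.2 (Ideal.mem_span_singleton_self F)
    simp [g, this]
  obtain ⟨δ, hδ, hz⟩ := newton I hI' c F (m ^ k) hk hF (by
    rw [map_pow]
    exact (hu c hc).pow k)
  let c' : ι → C := fun j => c j + δ j
  have hc' : ∀ j, Ideal.Quotient.mk I (c' j) = g (X j) := by
    intro j
    simp only [c', map_add, Ideal.Quotient.eq_zero_iff_mem.2 (hδ j), add_zero, hc]
  let h1 : (MvPolynomial ι ℂ ⧸ Ideal.span {F}) →ₐ[ℂ] C := Ideal.Quotient.liftₐ _ (aeval c') (by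
    intro a ha
    obtain ⟨q, rfl⟩ := Ideal.mem_span_singleton'.1 ha
    rw [map_mul]
    have : aeval c' F = 0 := hz
    rw [this, mul_zero])
  have h1u : ∀ y : Submonoid.powers (Ideal.Quotient.mk (Ideal.span {F}) m), IsUnit (h1 y) := by
    rintro ⟨_, n, rfl⟩
    simp only [map_pow]
    refine IsUnit.pow _ ?_
    exact hu c' hc'
  refine ⟨IsLocalization.liftAlgHom (M := Submonoid.powers (Ideal.Quotient.mk (Ideal.span {F}) m))
    (f := h1) h1u, ?_⟩
  apply IsLocalization.algHom_ext (Submonoid.powers (Ideal.Quotient.mk (Ideal.span {F}) m))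
  apply Ideal.Quotient.algHom_ext
  apply MvPolynomial.algHom_ext
  intro j
  have h2 : IsLocalization.lift h1u (algebraMap (MvPolynomial ι ℂ ⧸ Ideal.span {F}) B
      (Ideal.Quotient.mk (Ideal.span {F}) (X j))) = c' j := by
    rw [IsLocalization.lift_eq]
    exact aeval_X c' j
  have h3 := hc' j
  rw [← h2] at h3
  exact h3
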